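import Mathlib

/-!
# A Banach space from an equivalent norm
-/

set_option autoImplicit false

open Filter Topology

namespace Pool.Agent.TH315.OpId

/-- `N` is equivalent to the given norm -/
def IsEquivNorm {𝕜 X : Type} [RCLike 𝕜] [NormedAddCommGroup X] [NormedSpace 𝕜 X]
    (N : Seminorm 𝕜 X) : Prop :=
  ∃ a b : ℝ, 0 < a ∧ ∀ x, a * ‖x‖ ≤ N x ∧ N x ≤ b * ‖x‖

/-- the space `X` with the norm `N` -/
structure Ren {𝕜 X : Type} [RCLike 𝕜] [NormedAddCommGroup X] [NormedSpace 𝕜 X]
    (N : Seminorm 𝕜 X) (h : IsEquivNorm N) : Type where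
  /-- the underlying vector -/
  val : X

namespace Ren

variable {𝕜 X : Type} [RCLike 𝕜] [NormedAddCommGroup X] [NormedSpace 𝕜 X] (N : Seminorm 𝕜 X)
  (h : IsEquivNorm N)

/-- the bijection with `X` -/
def eqv : Ren N h ≃ X where
  toFun := val
  invFun := mk
  left_inv _ := rfl
  right_inv _ := rfl

instance : AddCommGroup (Ren N h) := (eqv N h).addCommGroup

instance : Module 𝕜 (Ren N h) := (eqv N h).module 𝕜

instance : Norm (Ren N h) := ⟨fun x => N x.val⟩

theorem core : NormedSpace.Core 𝕜 (Ren N h) where
  norm_nonneg x := apply_nonneg N x.val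
  norm_smul c x := map_smul_eq_mul N c x.val
  norm_triangle x y := map_add_le_add N x.val y.val
  norm_eq_zero_iff x := by
    constructor
    · intro hx
      obtain ⟨a, b, ha, h1⟩ := h
      have h2 : a * ‖x.val‖ ≤ 0 := (h1 x.val).1.trans (le_of_eq hx)
      have h3 : ‖x.val‖ ≤ 0 := by
        by_contra hcon
        push Not at hcon
        nlinarith
      have h4 : x.val = 0 := norm_le_zero_iff.1 h3
      exact (eqv N ⟨a, b, ha, h1⟩).injective h4
    · intro hx
      rw [hx]
      exact map_zero N

noncomputable instance : NormedAddCommGroup (Ren N h) := NormedAddCommGroup.ofCore (core N h)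

noncomputable instance : NormedSpace 𝕜 (Ren N h) := NormedSpace.ofCore (core N h)

theorem norm_def (x : Ren N h) : ‖x‖ = N x.val := rfl

/-- the linear bijection -/
noncomputable def lin : X ≃ₗ[𝕜] Ren N h where
  toFun := mk
  invFun := val
  left_inv _ := rfl
  right_inv _ := rfl
  map_add' _ _ := rfl
  map_smul' _ _ := rfl

/-- the isomorphism -/
noncomputable def iso : X ≃L[𝕜] Ren N h :=
  LinearEquiv.toContinuousLinearEquivOfBounds (lin N h) h.choose_spec.choose (h.choose)⁻¹
    (fun x => (h.choose_spec.choose_spec.2 x).2)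
    (fun x => by
      have h1 := h.choose_spec.choose_spec.1
      have h2 := (h.choose_spec.choose_spec.2 x.val).1
      rw [norm_def, inv_mul_eq_div, le_div_iff₀ h1, mul_comm]
      exact h2)

theorem iso_val (x : X) : (iso N h x).val = x := rfl

instance [CompleteSpace X] : CompleteSpace (Ren N h) :=
  (completeSpace_congr (e := (iso N h).toLinearEquiv.toEquiv) (iso N h).isUniformEmbedding).1
    inferInstance

end Ren

end Pool.Agent.TH315.OpId
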