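import Pool.Agent.TH315.OpId.Fac

/-!
# Condition `(P_1)` holds for the ideal, and the BAP for the ideal is the usual one
-/

set_option autoImplicit false

open Filter Topology
open scoped ENNReal

namespace Pool.Agent.TH315.OpId

variable {𝕜 : Type} [RCLike 𝕜]

section
variable {X Y Z W : Type} [NormedAddCommGroup X] [NormedSpace 𝕜 X] [NormedAddCommGroup Y]
  [NormedSpace 𝕜 Y] [NormedAddCommGroup Z] [NormedSpace 𝕜 Z] [NormedAddCommGroup W]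
  [NormedSpace 𝕜 W]

/-- finite rank, unbundled -/
def FR (T : X →L[𝕜] Y) : Prop := FiniteDimensional 𝕜 (LinearMap.range (T : X →ₗ[𝕜] Y))

theorem FR.comp_left {T : X →L[𝕜] Y} (h : FR T) (R : Y →L[𝕜] Z) :
    FR (R.comp T) := by
  have : FiniteDimensional 𝕜 (LinearMap.range (T : X →ₗ[𝕜] Y)) := h
  have h2 : LinearMap.range ((R.comp T : X →L[𝕜] Z) : X →ₗ[𝕜] Z) ≤
      (LinearMap.range (T : X →ₗ[𝕜] Y)).map (R : Y →ₗ[𝕜] Z) := by
    rintro _ ⟨x, rfl⟩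
    exact ⟨T x, ⟨x, rfl⟩, rfl⟩
  exact Submodule.finiteDimensional_of_le h2

theorem FR.comp_right {T : X →L[𝕜] Y} (h : FR T) (S : W →L[𝕜] X) :
    FR (T.comp S) := by
  have : FiniteDimensional 𝕜 (LinearMap.range (T : X →ₗ[𝕜] Y)) := h
  have h2 : LinearMap.range ((T.comp S : W →L[𝕜] Y) : W →ₗ[𝕜] Y) ≤
      LinearMap.range (T : X →ₗ[𝕜] Y) := by
    rintro _ ⟨x, rfl⟩
    exact ⟨S x, rfl⟩
  exact Submodule.finiteDimensional_of_le h2

/-- composition with a map of the index set -/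
noncomputable def cmp {Γ : Type} (σ : Γ → Γ) : LI 𝕜 Γ →L[𝕜] LI 𝕜 Γ :=
  LinearMap.mkContinuous
    { toFun := fun f => ⟨fun γ => f (σ γ), memℓp_infty ⟨‖f‖, by
        rintro _ ⟨γ, rfl⟩
        exact lp.norm_apply_le_norm ENNReal.top_ne_zero f _⟩⟩
      map_add' := fun f g => rfl
      map_smul' := fun c f => rfl } 1 (fun f => by
        rw [one_mul]
        exact lp.norm_le_of_forall_le (norm_nonneg _) fun γ =>
          lp.norm_apply_le_norm ENNReal.top_ne_zero f _)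

theorem cmp_norm {Γ : Type} (σ : Γ → Γ) : ‖(cmp σ : LI 𝕜 Γ →L[𝕜] LI 𝕜 Γ)‖ ≤ 1 :=
  LinearMap.mkContinuous_norm_le _ zero_le_one _

theorem cmp_apply {Γ : Type} (σ : Γ → Γ) (f : LI 𝕜 Γ) (γ : Γ) :
    (cmp (𝕜 := 𝕜) σ f : Γ → 𝕜) γ = f (σ γ) := rfl

theorem cmp_finiteRank {Γ : Type} (σ : Γ → Γ) (hσ : (Set.range σ).Finite) :
    FR (cmp σ : LI 𝕜 Γ →L[𝕜] LI 𝕜 Γ) := by
  have : Finite (Set.range σ) := hσ
  let E : (Set.range σ → 𝕜) →ₗ[𝕜] LI 𝕜 Γ :=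
    { toFun := fun h => ⟨fun γ => h ⟨σ γ, γ, rfl⟩, memℓp_infty (by
        refine ((Set.finite_range (fun t : Set.range σ => ‖h t‖)).subset ?_).bddAbove
        rintro _ ⟨γ, rfl⟩
        exact ⟨⟨σ γ, γ, rfl⟩, rfl⟩)⟩
      map_add' := fun f g => rfl
      map_smul' := fun c f => rfl }
  have h2 : LinearMap.range ((cmp σ : LI 𝕜 Γ →L[𝕜] LI 𝕜 Γ) : LI 𝕜 Γ →ₗ[𝕜] LI 𝕜 Γ) ≤
      LinearMap.range E := by
    rintro _ ⟨f, rfl⟩
    exact ⟨fun t => f t.1, rfl⟩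
  exact Submodule.finiteDimensional_of_le h2

/-- finitely many elements of `ℓ_∞(Γ)` are almost constant on the pieces of a finite partition -/
theorem exists_cmp {Γ : Type} (S : X → LI 𝕜 Γ) (F : Finset X) (ε : ℝ) (hε : 0 < ε) :
    ∃ σ : Γ → Γ, (Set.range σ).Finite ∧ ∀ x ∈ F, ‖(cmp σ : LI 𝕜 Γ →L[𝕜] _) (S x) - S x‖ ≤ ε := by
  classical
  let Φ : Γ → (F → 𝕜) := fun γ x => S x γ
  have hb : Bornology.IsBounded (Set.range Φ) := by
    rw [isBounded_iff_forall_norm_le]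
    refine ⟨∑ x : F, ‖S x‖, ?_⟩
    rintro _ ⟨γ, rfl⟩
    rw [pi_norm_le_iff_of_nonneg (Finset.sum_nonneg fun _ _ => norm_nonneg _)]
    intro x
    refine (lp.norm_apply_le_norm ENNReal.top_ne_zero (S x) γ).trans ?_
    exact Finset.single_le_sum (f := fun x : F => ‖S x‖) (fun _ _ => norm_nonneg _)
      (Finset.mem_univ x)
  have htb : TotallyBounded (Set.range Φ) := by
    have : IsCompact (closure (Set.range Φ)) := hb.isCompact_closure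
    exact this.totallyBounded.subset subset_closure
  obtain ⟨t, hts, htf, ht⟩ := Metric.finite_approx_of_totallyBounded htb ε hε
  have h1 : ∀ γ : Γ, ∃ y ∈ t, dist (Φ γ) y < ε := by
    intro γ
    obtain ⟨y, hy, hy2⟩ := Set.mem_iUnion₂.1 (ht ⟨γ, rfl⟩)
    exact ⟨y, hy, hy2⟩
  choose y hyt hy using h1
  have h2 : ∀ z ∈ t, ∃ γ, Φ γ = z := fun z hz => hts hz
  choose c hc using h2
  refine ⟨fun γ => c (y γ) (hyt γ), ?_, fun x hx => ?_⟩
  · have : Finite t := htf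
    refine (Set.finite_range (fun z : t => c z.1 z.2)).subset ?_
    rintro _ ⟨γ, rfl⟩
    exact ⟨⟨y γ, hyt γ⟩, rfl⟩
  · refine lp.norm_le_of_forall_le hε.le fun γ => ?_
    have h3 := hc _ (hyt γ)
    have h4 : (S x : Γ → 𝕜) (c (y γ) (hyt γ)) = y γ ⟨x, hx⟩ := congrFun h3 ⟨x, hx⟩
    have h5 : dist (Φ γ ⟨x, hx⟩) (y γ ⟨x, hx⟩) ≤ dist (Φ γ) (y γ) := dist_le_pi_dist _ _ _
    have h6 : (((cmp (𝕜 := 𝕜) (fun γ => c (y γ) (hyt γ))) (S x) - S x : LI 𝕜 Γ) : Γ → 𝕜) γ =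
        y γ ⟨x, hx⟩ - Φ γ ⟨x, hx⟩ := by
      rw [lp.coeFn_sub, Pi.sub_apply, cmp_apply, h4]
    rw [h6, ← dist_eq_norm, dist_comm]
    exact h5.trans (hy γ).le

theorem exists_approx {T : X →L[𝕜] Y} (hT : ∃ c, Fac T c) (F : Finset X) (ε : ℝ) (hε : 0 < ε) :
    ∃ V : X →L[𝕜] Y, FR V ∧ Fac V (facNorm T + ε) ∧ ∀ x ∈ F, ‖V x - T x‖ ≤ ε := by
  obtain ⟨Γ, S, R, rfl, hS, hR⟩ := (fac_of_lt hT (lt_add_of_pos_right (facNorm T) hε)).normal
  obtain ⟨σ, hσ, hσ2⟩ := exists_cmp (𝕜 := 𝕜) (fun x => S x) F (ε / (‖R‖ + 1)) (by positivity)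
  refine ⟨R.comp ((cmp σ).comp S), ((cmp_finiteRank σ hσ).comp_right S).comp_left R, ?_, ?_⟩
  · refine ⟨Γ, (cmp σ).comp S, R, rfl, ?_⟩
    have h1 : ‖(cmp σ).comp S‖ ≤ 1 := by
      refine (ContinuousLinearMap.opNorm_comp_le _ _).trans ?_
      exact mul_le_one₀ (cmp_norm σ) (norm_nonneg _) hS
    exact (mul_le_of_le_one_right (norm_nonneg _) h1).trans hR
  · intro x hx
    have h1 : (R.comp ((cmp σ).comp S)) x - (R.comp S) x = R (cmp (𝕜 := 𝕜) σ (S x) - S x) := by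
      rw [map_sub]; rfl
    rw [h1]
    calc ‖R (cmp (𝕜 := 𝕜) σ (S x) - S x)‖ ≤ ‖R‖ * (ε / (‖R‖ + 1)) :=
          (R.le_opNorm _).trans (mul_le_mul_of_nonneg_left (hσ2 x hx) (norm_nonneg _))
      _ ≤ ε := by
          rw [mul_div_assoc', div_le_iff₀ (by positivity)]
          nlinarith [norm_nonneg R]

/-- canonical embedding into `ℓ_∞` of the dual ball -/
noncomputable def emb (X : Type) [NormedAddCommGroup X] [NormedSpace 𝕜 X] :
    X →L[𝕜] LI 𝕜 {f : StrongDual 𝕜 X // ‖f‖ ≤ 1} :=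
  LinearMap.mkContinuous
    { toFun := fun x => ⟨fun f => f.1 x, memℓp_infty ⟨‖x‖, by
        rintro _ ⟨f, rfl⟩
        exact (f.1.le_opNorm x).trans (mul_le_of_le_one_left (norm_nonneg _) f.2)⟩⟩
      map_add' := fun x y => by
        ext
        simp only [map_add]
        rfl
      map_smul' := fun c x => by
        ext
        simp only [map_smul]
        rfl } 1 (fun x => by
        rw [one_mul]
        exact lp.norm_le_of_forall_le (norm_nonneg _) fun f =>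
          (f.1.le_opNorm x).trans (mul_le_of_le_one_left (norm_nonneg _) f.2))

theorem emb_norm (x : X) : ‖emb (𝕜 := 𝕜) X x‖ = ‖x‖ := by
  refine le_antisymm ?_ ?_
  · refine ((emb (𝕜 := 𝕜) X).le_opNorm x).trans ?_
    refine mul_le_of_le_one_left (norm_nonneg _) (LinearMap.mkContinuous_norm_le _ zero_le_one _)
  · obtain ⟨g, hg, hgx⟩ := exists_dual_vector'' 𝕜 x
    have h1 := lp.norm_apply_le_norm ENNReal.top_ne_zero (emb (𝕜 := 𝕜) X x) ⟨g, hg⟩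
    have h2 : (emb (𝕜 := 𝕜) X x : {f : StrongDual 𝕜 X // ‖f‖ ≤ 1} → 𝕜) ⟨g, hg⟩ = g x := rfl
    rw [h2, hgx, RCLike.norm_ofReal, abs_of_nonneg (norm_nonneg x)] at h1
    exact h1

theorem emb_fac : Fac (emb (𝕜 := 𝕜) X) 1 := by
  refine ⟨_, emb X, ContinuousLinearMap.id 𝕜 _, by ext; rfl, ?_⟩
  calc ‖ContinuousLinearMap.id 𝕜 (LI 𝕜 {f : StrongDual 𝕜 X // ‖f‖ ≤ 1})‖ * ‖emb (𝕜 := 𝕜) X‖
      ≤ 1 * 1 := mul_le_mul ContinuousLinearMap.norm_id_le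
        (LinearMap.mkContinuous_norm_le _ zero_le_one _) (norm_nonneg _) zero_le_one
    _ = 1 := one_mul 1

end

/-- every Banach space satisfies `(P_1)` for the ideal -/
theorem condP_facIdeal (X : BanSp 𝕜) : CondP (facIdeal 𝕜) 1 X := by
  classical
  intro Y T hT
  have hT' : ∃ c, Fac T.map c := hT
  have hV : ∀ i : Finset X.carrier × ℕ, ∃ V : Op X Y, FiniteRank V ∧
      Fac V.map (facNorm T.map + 1 / ((i.2 : ℝ) + 1)) ∧
      ∀ x ∈ i.1, ‖V.app x - T.app x‖ ≤ 1 / ((i.2 : ℝ) + 1) := fun i =>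
    exists_approx hT' i.1 (1 / ((i.2 : ℝ) + 1)) (by positivity)
  choose V hV1 hV2 hV3 using hV
  refine ⟨Finset X.carrier × ℕ, inferInstance, inferInstance, inferInstance, V, hV1, fun x => ?_,
    fun ε hε => ?_⟩
  · rw [Metric.tendsto_atTop]
    intro ε hε
    obtain ⟨n, hn⟩ := exists_nat_one_div_lt hε
    refine ⟨({x}, n), fun i hi => ?_⟩
    rw [dist_eq_norm]
    have h1 : x ∈ i.1 := hi.1 (Finset.mem_singleton_self x)
    have h2 : (n : ℝ) ≤ i.2 := by exact_mod_cast hi.2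
    refine (hV3 i x h1).trans_lt (lt_of_le_of_lt ?_ hn)
    gcongr
  · obtain ⟨n, hn⟩ := exists_nat_one_div_lt hε
    filter_upwards [eventually_ge_atTop ((∅, n) : Finset X.carrier × ℕ)] with i hi
    have h2 : (n : ℝ) ≤ i.2 := by exact_mod_cast hi.2
    have h3 : 1 / ((i.2 : ℝ) + 1) ≤ 1 / ((n : ℝ) + 1) := by gcongr
    have h4 : facNorm (V i).map ≤ facNorm T.map + 1 / ((i.2 : ℝ) + 1) := facNorm_le (hV2 i)
    show facNorm (V i).map ≤ 1 * facNorm T.map + ε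
    linarith

/-- the `λ`-BAP for the ideal gives the usual `λ`-BAP -/
theorem bap_of_bapFor (X : BanSp 𝕜) (lam : ℝ) (h : BAPFor (facIdeal 𝕜) lam X) (K : Set X.carrier)
    (hK : IsCompact K) (ε : ℝ) (hε : 0 < ε) :
    ∃ S : X.carrier →L[𝕜] X.carrier, FR S ∧ ‖S‖ ≤ max lam 0 + ε ∧ ∀ x ∈ K, ‖S x - x‖ ≤ ε := by
  let Y : BanSp 𝕜 := ⟨LI 𝕜 {f : StrongDual 𝕜 X.carrier // ‖f‖ ≤ 1}⟩
  let J : Op X Y := mkOp (emb (𝕜 := 𝕜) X.carrier)
  obtain ⟨ι, _, _, _, S, h1, h2, h3⟩ := h Y J ⟨1, emb_fac⟩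
  obtain ⟨i, hi1, hi2⟩ := ((h2 K hK ε hε).and (h3 ε hε)).exists
  refine ⟨(S i).map, h1 i, ?_, hi1⟩
  have hi2' : facNorm ((emb (𝕜 := 𝕜) X.carrier).comp (S i).map) ≤
      lam * facNorm (emb (𝕜 := 𝕜) X.carrier) + ε := hi2
  have h4 : ‖(emb (𝕜 := 𝕜) X.carrier).comp (S i).map‖ ≤
      facNorm ((emb (𝕜 := 𝕜) X.carrier).comp (S i).map) := by
    have := (emb_fac (𝕜 := 𝕜) (X := X.carrier)).comp (S i).map (ContinuousLinearMap.id 𝕜 _)
    exact le_facNorm ⟨_, this⟩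
  have h5 : ‖(S i).map‖ = ‖(emb (𝕜 := 𝕜) X.carrier).comp (S i).map‖ := by
    refine le_antisymm ?_ ?_
    · refine ContinuousLinearMap.opNorm_le_bound _ (norm_nonneg _) fun x => ?_
      rw [← emb_norm (𝕜 := 𝕜) ((S i).map x)]
      exact ((emb (𝕜 := 𝕜) X.carrier).comp (S i).map).le_opNorm x
    · refine ContinuousLinearMap.opNorm_le_bound _ (norm_nonneg _) fun x => ?_
      rw [ContinuousLinearMap.comp_apply, emb_norm]
      exact (S i).map.le_opNorm x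
  have h6 : facNorm (emb (𝕜 := 𝕜) X.carrier) ≤ 1 := facNorm_le emb_fac
  have h7 : 0 ≤ facNorm (emb (𝕜 := 𝕜) X.carrier) := facNorm_nonneg ⟨1, emb_fac⟩
  rw [h5]
  refine h4.trans (hi2'.trans ?_)
  gcongr
  calc lam * facNorm (emb (𝕜 := 𝕜) X.carrier) ≤ max lam 0 * facNorm (emb (𝕜 := 𝕜) X.carrier) :=
        mul_le_mul_of_nonneg_right (le_max_left _ _) h7
    _ ≤ max lam 0 * 1 := mul_le_mul_of_nonneg_left h6 (le_max_right _ _)
    _ = _ := mul_one _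

end Pool.Agent.TH315.OpId
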