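import Mathlib

/-!
# Banach operator ideals, condition `(P_λ)` and the `λ`-bounded approximation property for an ideal
-/

set_option autoImplicit false

open Filter Topology

namespace Pool.Agent.TH315.OpId

/-- A Banach space over `𝕜`. -/
structure BanSp (𝕜 : Type) [RCLike 𝕜] where
  /-- the underlying set -/
  carrier : Type
  [nacg : NormedAddCommGroup carrier]
  [nsp : NormedSpace 𝕜 carrier]
  [compl : CompleteSpace carrier]

attribute [instance] BanSp.nacg BanSp.nsp BanSp.compl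

section

variable {𝕜 : Type} [RCLike 𝕜]

/-- The bounded operators from `X` to `Y`. -/
def Op (X Y : BanSp 𝕜) : Type := X.carrier →L[𝕜] Y.carrier

/-- A bounded operator as an element of `Op X Y`. -/
def mkOp {X Y : BanSp 𝕜} (T : X.carrier →L[𝕜] Y.carrier) : Op X Y := T

/-- An element of `Op X Y` as a bounded operator. -/
def Op.map {X Y : BanSp 𝕜} (T : Op X Y) : X.carrier →L[𝕜] Y.carrier := T

/-- `T x` -/
def Op.app {X Y : BanSp 𝕜} (T : Op X Y) (x : X.carrier) : Y.carrier := T.map x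

/-- the operator norm -/
noncomputable def Op.norm {X Y : BanSp 𝕜} (T : Op X Y) : ℝ := ‖T.map‖

/-- `T + S` -/
noncomputable def Op.add {X Y : BanSp 𝕜} (T S : Op X Y) : Op X Y := mkOp (T.map + S.map)

/-- `T - S` -/
noncomputable def Op.sub {X Y : BanSp 𝕜} (T S : Op X Y) : Op X Y := mkOp (T.map - S.map)

/-- `c T` -/
noncomputable def Op.smul {X Y : BanSp 𝕜} (T : Op X Y) (c : 𝕜) : Op X Y := mkOp (c • T.map)

/-- The composition `R T`. -/
def cmpOp {X Y Z : BanSp 𝕜} (R : Op Y Z) (T : Op X Y) : Op X Z := mkOp (R.map.comp T.map)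

/-- `T` has finite rank. -/
def FiniteRank {X Y : BanSp 𝕜} (T : Op X Y) : Prop :=
  FiniteDimensional 𝕜 (LinearMap.range (T.map : X.carrier →ₗ[𝕜] Y.carrier))

/-- The rank one operator `f ⊗ y : x ↦ f(x) y`. -/
noncomputable def rankOne {X Y : BanSp 𝕜} (f : StrongDual 𝕜 X.carrier) (y : Y.carrier) : Op X Y :=
  mkOp (f.smulRight y)

end

/-- For all Banach spaces `X`, `Y` a set of bounded operators from `X` to `Y` (`Mem T` says that `T`
belongs to it), and a real function `nrm` of the operators. -/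
structure OpClass (𝕜 : Type) [RCLike 𝕜] where
  /-- membership -/
  Mem : ∀ {X Y : BanSp 𝕜}, Op X Y → Prop
  /-- the function (only its values at the members matter) -/
  nrm : ∀ {X Y : BanSp 𝕜}, Op X Y → ℝ

section

variable {𝕜 : Type} [RCLike 𝕜]

/-- The members from `X` to `Y` form a linear space which contains the finite rank operators. -/
structure IsLinear (A : OpClass 𝕜) : Prop where
  finiteRank_mem : ∀ {X Y : BanSp 𝕜} (T : Op X Y), FiniteRank T → A.Mem T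
  add_mem : ∀ {X Y : BanSp 𝕜} (T S : Op X Y), A.Mem T → A.Mem S → A.Mem (T.add S)
  smul_mem : ∀ {X Y : BanSp 𝕜} (c : 𝕜) (T : Op X Y), A.Mem T → A.Mem (T.smul c)

/-- The function is a norm on these spaces. -/
structure IsNorm (A : OpClass 𝕜) : Prop where
  nonneg : ∀ {X Y : BanSp 𝕜} (T : Op X Y), A.Mem T → 0 ≤ A.nrm T
  definite : ∀ {X Y : BanSp 𝕜} (T : Op X Y), A.Mem T → A.nrm T = 0 → T.norm = 0
  add_le : ∀ {X Y : BanSp 𝕜} (T S : Op X Y), A.Mem T → A.Mem S → A.nrm (T.add S) ≤ A.nrm T + A.nrm S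
  smul : ∀ {X Y : BanSp 𝕜} (c : 𝕜) (T : Op X Y), A.Mem T → A.nrm (T.smul c) = ‖c‖ * A.nrm T

/-- The normed spaces are complete. -/
def IsComplete (A : OpClass 𝕜) : Prop :=
  ∀ (X Y : BanSp 𝕜) (T : ℕ → Op X Y), (∀ n, A.Mem (T n)) →
    (∀ ε : ℝ, 0 < ε → ∃ N, ∀ m ≥ N, ∀ n ≥ N, A.nrm ((T m).sub (T n)) < ε) →
    ∃ S : Op X Y, A.Mem S ∧ Tendsto (fun n => A.nrm ((T n).sub S)) atTop (𝓝 0)

/-- The ideal property: `R T S` is a member, with norm at most `‖R‖ ‖T‖ ‖S‖`, if `T` is a member;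
and `‖f ⊗ y‖ = ‖f‖ ‖y‖`. -/
structure IsIdeal (A : OpClass 𝕜) : Prop where
  comp_mem : ∀ {W X Y Z : BanSp 𝕜} (S : Op W X) (T : Op X Y) (R : Op Y Z), A.Mem T →
    A.Mem (cmpOp R (cmpOp T S))
  comp_le : ∀ {W X Y Z : BanSp 𝕜} (S : Op W X) (T : Op X Y) (R : Op Y Z), A.Mem T →
    A.nrm (cmpOp R (cmpOp T S)) ≤ R.norm * A.nrm T * S.norm
  rankOne : ∀ {X Y : BanSp 𝕜} (f : StrongDual 𝕜 X.carrier) (y : Y.carrier),
    A.nrm (rankOne f y : Op X Y) = ‖f‖ * ‖y‖

/-- `A` is a Banach operator ideal. -/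
structure IsBanachOperatorIdeal (A : OpClass 𝕜) : Prop where
  isLinear : IsLinear A
  isNorm : IsNorm A
  isComplete : IsComplete A
  isIdeal : IsIdeal A

/-- Condition `(P_λ)` for the ideal `A`: for every Banach space `Y` and every `T` in `A(X,Y)` there
is a net of finite rank operators `V i : X → Y` which converges pointwise to `T`, with
`limsup ‖V i‖_A ≤ λ ‖T‖_A`. -/
def CondP (A : OpClass 𝕜) (lam : ℝ) (X : BanSp 𝕜) : Prop :=
  ∀ (Y : BanSp 𝕜) (T : Op X Y), A.Mem T →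
    ∃ (ι : Type) (_ : Nonempty ι) (_ : Preorder ι) (_ : IsDirectedOrder ι) (V : ι → Op X Y),
      (∀ i, FiniteRank (V i)) ∧
      (∀ x : X.carrier, Tendsto (fun i => (V i).app x) atTop (𝓝 (T.app x))) ∧
      ∀ ε : ℝ, 0 < ε → ∀ᶠ i in atTop, A.nrm (V i) ≤ lam * A.nrm T + ε

/-- The `λ`-BAP for the ideal `A`: for every Banach space `Y` and every `T` in `A(X,Y)` there is a
net of finite rank operators `S i : X → X` which converges to the identity uniformly on the compact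
sets, with `limsup ‖T S i‖_A ≤ λ ‖T‖_A`. -/
def BAPFor (A : OpClass 𝕜) (lam : ℝ) (X : BanSp 𝕜) : Prop :=
  ∀ (Y : BanSp 𝕜) (T : Op X Y), A.Mem T →
    ∃ (ι : Type) (_ : Nonempty ι) (_ : Preorder ι) (_ : IsDirectedOrder ι) (S : ι → Op X X),
      (∀ i, FiniteRank (S i)) ∧
      (∀ K : Set X.carrier, IsCompact K → ∀ ε : ℝ, 0 < ε →
        ∀ᶠ i in atTop, ∀ x ∈ K, ‖(S i).app x - x‖ ≤ ε) ∧
      ∀ ε : ℝ, 0 < ε → ∀ᶠ i in atTop, A.nrm (cmpOp T (S i)) ≤ lam * A.nrm T + ε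

end

end Pool.Agent.TH315.OpId
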