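import Pool.Agent.TH315.OpId.Defs

/-!
# The ideal of the operators which factor through a space `ℓ_∞(Γ)`
-/

set_option autoImplicit false

open Filter Topology
open scoped ENNReal

namespace Pool.Agent.TH315.OpId

variable {𝕜 : Type} [RCLike 𝕜]

/-- `ℓ_∞(Γ)` -/
abbrev LI (𝕜 : Type) [RCLike 𝕜] (Γ : Type) : Type := lp (fun _ : Γ => 𝕜) ∞

section
variable {X Y Z W : Type} [NormedAddCommGroup X] [NormedSpace 𝕜 X] [NormedAddCommGroup Y]
  [NormedSpace 𝕜 Y] [NormedAddCommGroup Z] [NormedSpace 𝕜 Z] [NormedAddCommGroup W]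
  [NormedSpace 𝕜 W]

/-- `T` factors through some `ℓ_∞(Γ)` with constant `c`. -/
def Fac (T : X →L[𝕜] Y) (c : ℝ) : Prop :=
  ∃ (Γ : Type) (S : X →L[𝕜] LI 𝕜 Γ) (R : LI 𝕜 Γ →L[𝕜] Y), T = R.comp S ∧ ‖R‖ * ‖S‖ ≤ c

theorem Fac.norm_le {T : X →L[𝕜] Y} {c : ℝ} (h : Fac T c) : ‖T‖ ≤ c := by
  obtain ⟨Γ, S, R, rfl, h⟩ := h
  exact (R.opNorm_comp_le S).trans h

theorem Fac.nonneg {T : X →L[𝕜] Y} {c : ℝ} (h : Fac T c) : 0 ≤ c :=
  (norm_nonneg _).trans h.norm_le

theorem Fac.mono {T : X →L[𝕜] Y} {c d : ℝ} (h : Fac T c) (hcd : c ≤ d) : Fac T d := by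
  obtain ⟨Γ, S, R, h1, h2⟩ := h
  exact ⟨Γ, S, R, h1, h2.trans hcd⟩

theorem Fac.normal {T : X →L[𝕜] Y} {c : ℝ} (h : Fac T c) :
    ∃ (Γ : Type) (S : X →L[𝕜] LI 𝕜 Γ) (R : LI 𝕜 Γ →L[𝕜] Y),
      T = R.comp S ∧ ‖S‖ ≤ 1 ∧ ‖R‖ ≤ c := by
  have hc := h.nonneg
  obtain ⟨Γ, S, R, rfl, h⟩ := h
  by_cases hS : S = 0
  · refine ⟨Γ, 0, 0, ?_, by simp, by simpa using hc⟩
    rw [hS]
    simp
  · have hn : 0 < ‖S‖ := norm_pos_iff.2 hS
    have hn' : (‖S‖ : 𝕜) ≠ 0 := by exact_mod_cast hn.ne'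
    refine ⟨Γ, ((‖S‖ : 𝕜)⁻¹) • S, (‖S‖ : 𝕜) • R, ?_, ?_, ?_⟩
    · ext x
      simp only [ContinuousLinearMap.comp_apply, ContinuousLinearMap.smul_apply, map_smul]
      rw [smul_smul, inv_mul_cancel₀ hn', one_smul]
    · rw [norm_smul, norm_inv, RCLike.norm_ofReal, abs_of_pos hn, inv_mul_cancel₀ hn.ne']
    · rw [norm_smul, RCLike.norm_ofReal, abs_of_pos hn, mul_comm]
      exact h

theorem Fac.comp {T : X →L[𝕜] Y} {c : ℝ} (h : Fac T c) (S : W →L[𝕜] X) (R : Y →L[𝕜] Z) :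
    Fac (R.comp (T.comp S)) (‖R‖ * c * ‖S‖) := by
  obtain ⟨Γ, S₁, R₁, rfl, h⟩ := h
  refine ⟨Γ, S₁.comp S, R.comp R₁, rfl, ?_⟩
  calc ‖R.comp R₁‖ * ‖S₁.comp S‖ ≤ (‖R‖ * ‖R₁‖) * (‖S₁‖ * ‖S‖) :=
        mul_le_mul (R.opNorm_comp_le R₁) (S₁.opNorm_comp_le S) (norm_nonneg _) (by positivity)
    _ = ‖R‖ * (‖R₁‖ * ‖S₁‖) * ‖S‖ := by ring
    _ ≤ ‖R‖ * c * ‖S‖ := by gcongr

theorem Fac.smul {T : X →L[𝕜] Y} {c : ℝ} (h : Fac T c) (a : 𝕜) : Fac (a • T) (‖a‖ * c) := by
  obtain ⟨Γ, S₁, R₁, rfl, h⟩ := h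
  refine ⟨Γ, S₁, a • R₁, ?_, ?_⟩
  · ext x; simp
  · rw [norm_smul, mul_assoc]
    gcongr

/-- restriction of bounded families to one summand -/
noncomputable def res {ι : Type} (Γ : ι → Type) (i : ι) : LI 𝕜 (Σ i, Γ i) →L[𝕜] LI 𝕜 (Γ i) :=
  LinearMap.mkContinuous
    { toFun := fun f => ⟨fun γ => f ⟨i, γ⟩, memℓp_infty ⟨‖f‖, by
        rintro _ ⟨γ, rfl⟩
        exact lp.norm_apply_le_norm ENNReal.top_ne_zero f _⟩⟩
      map_add' := fun f g => rfl
      map_smul' := fun c f => rfl } 1 (fun f => by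
        rw [one_mul]
        exact lp.norm_le_of_forall_le (norm_nonneg _) fun γ =>
          lp.norm_apply_le_norm ENNReal.top_ne_zero f _)

theorem res_norm {ι : Type} (Γ : ι → Type) (i : ι) : ‖(res Γ i : LI 𝕜 (Σ i, Γ i) →L[𝕜] _)‖ ≤ 1 :=
  LinearMap.mkContinuous_norm_le _ zero_le_one _

/-- joint map into the big space -/
noncomputable def join {ι : Type} (Γ : ι → Type) (S : ∀ i, X →L[𝕜] LI 𝕜 (Γ i))
    (hS : ∀ i, ‖S i‖ ≤ 1) : X →L[𝕜] LI 𝕜 (Σ i, Γ i) :=
  LinearMap.mkContinuous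
    { toFun := fun x => ⟨fun s => S s.1 x s.2, memℓp_infty ⟨‖x‖, by
        rintro _ ⟨s, rfl⟩
        refine (lp.norm_apply_le_norm ENNReal.top_ne_zero (S s.1 x) s.2).trans ?_
        refine ((S s.1).le_opNorm x).trans ?_
        exact mul_le_of_le_one_left (norm_nonneg _) (hS _)⟩⟩
      map_add' := fun f g => by
        ext s
        simp only [map_add]
        rfl
      map_smul' := fun c f => by
        ext s
        simp only [map_smul]
        rfl } 1 (fun x => by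
        rw [one_mul]
        refine lp.norm_le_of_forall_le (norm_nonneg _) fun s => ?_
        refine (lp.norm_apply_le_norm ENNReal.top_ne_zero (S s.1 x) s.2).trans ?_
        refine ((S s.1).le_opNorm x).trans ?_
        exact mul_le_of_le_one_left (norm_nonneg _) (hS _))

theorem join_norm {ι : Type} (Γ : ι → Type) (S : ∀ i, X →L[𝕜] LI 𝕜 (Γ i))
    (hS : ∀ i, ‖S i‖ ≤ 1) : ‖join Γ S hS‖ ≤ 1 :=
  LinearMap.mkContinuous_norm_le _ zero_le_one _

theorem res_join {ι : Type} (Γ : ι → Type) (S : ∀ i, X →L[𝕜] LI 𝕜 (Γ i))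
    (hS : ∀ i, ‖S i‖ ≤ 1) (i : ι) (x : X) : (res (𝕜 := 𝕜) Γ i) (join Γ S hS x) = S i x := rfl

theorem fac_sum [CompleteSpace Y] {ι : Type} (T : ι → X →L[𝕜] Y) (c : ι → ℝ) (hc : Summable c)
    (h : ∀ i, Fac (T i) (c i)) (U : X →L[𝕜] Y) (hU : ∀ x, HasSum (fun i => T i x) (U x)) :
    Fac U (∑' i, c i) := by
  choose Γ S R hT hS hR using fun i => (h i).normal
  have hc0 : ∀ i, 0 ≤ c i := fun i => (h i).nonneg
  have hb : ∀ i, ‖(R i).comp (res Γ i)‖ ≤ c i := fun i =>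
    (ContinuousLinearMap.opNorm_comp_le _ _).trans
      ((mul_le_of_le_one_right (norm_nonneg _) (res_norm Γ i)).trans (hR i))
  have hsum : Summable fun i => (R i).comp (res Γ i) := Summable.of_norm_bounded hc hb
  refine ⟨Σ i, Γ i, join Γ S hS, ∑' i, (R i).comp (res Γ i), ?_, ?_⟩
  · ext x
    have h1 := (ContinuousLinearMap.apply 𝕜 Y (join Γ S hS x)).hasSum hsum.hasSum
    refine (hU x).unique ?_
    have h2 : (fun i => T i x) = fun i => (ContinuousLinearMap.apply 𝕜 Y (join Γ S hS x))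
        ((R i).comp (res Γ i)) := by
      ext i
      rw [hT i]
      rfl
    rw [h2]
    exact h1
  · have h1 : ‖∑' i, (R i).comp (res Γ i)‖ ≤ ∑' i, c i := tsum_of_norm_bounded hc.hasSum hb
    calc ‖∑' i, (R i).comp (res Γ i)‖ * ‖join Γ S hS‖ ≤ (∑' i, c i) * 1 :=
          mul_le_mul h1 (join_norm Γ S hS) (norm_nonneg _) (tsum_nonneg hc0)
      _ = _ := mul_one _

theorem Fac.add [CompleteSpace Y] {T S : X →L[𝕜] Y} {c d : ℝ} (hT : Fac T c) (hS : Fac S d) :
    Fac (T + S) (c + d) := by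
  have h := fac_sum (ι := Bool) (fun b => if b then T else S) (fun b => if b then c else d)
    (Summable.of_finite) (by
      intro b
      cases b
      · simpa using hS
      · simpa using hT) (T + S) (by
      intro x
      have := hasSum_fintype (fun b : Bool => (if b then T else S) x)
      simpa using this)
  rw [tsum_fintype] at h
  simpa using h

theorem fac_rankOne (f : StrongDual 𝕜 X) (y : Y) : Fac (f.smulRight y) (‖f‖ * ‖y‖) := by
  let S : X →L[𝕜] LI 𝕜 Unit := LinearMap.mkContinuous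
    { toFun := fun x => ⟨fun _ => f x, memℓp_infty ⟨‖f x‖, by
        rintro _ ⟨s, rfl⟩
        exact le_rfl⟩⟩
      map_add' := fun x y => by
        ext
        simp only [map_add]
        rfl
      map_smul' := fun c x => by
        ext
        simp only [map_smul]
        rfl } ‖f‖ (fun x =>
        lp.norm_le_of_forall_le (by positivity) fun _ => f.le_opNorm x)
  let R : LI 𝕜 Unit →L[𝕜] Y := LinearMap.mkContinuous
    { toFun := fun g => (g () : 𝕜) • y
      map_add' := fun x z => by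
        rw [← add_smul]; rfl
      map_smul' := fun c x => by
        rw [RingHom.id_apply, smul_smul]; rfl } ‖y‖ (fun g => by
        show ‖(g () : 𝕜) • y‖ ≤ ‖y‖ * ‖g‖
        rw [norm_smul, mul_comm]
        exact mul_le_mul_of_nonneg_left (lp.norm_apply_le_norm ENNReal.top_ne_zero g _)
          (norm_nonneg _))
  refine ⟨Unit, S, R, ?_, ?_⟩
  · ext x
    rfl
  · rw [mul_comm]
    exact mul_le_mul (LinearMap.mkContinuous_norm_le _ (norm_nonneg _) _)
      (LinearMap.mkContinuous_norm_le _ (norm_nonneg _) _) (norm_nonneg _) (norm_nonneg _)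

theorem fac_zero : Fac (0 : X →L[𝕜] Y) 0 := by
  have := fac_rankOne (0 : StrongDual 𝕜 X) (0 : Y)
  simpa using this

theorem fac_of_finiteRank [CompleteSpace Y] (T : X →L[𝕜] Y) (hT : FiniteDimensional 𝕜 (LinearMap.range (T : X →ₗ[𝕜] Y))) :
    ∃ c, Fac T c := by
  let b := Module.finBasis 𝕜 (LinearMap.range (T : X →ₗ[𝕜] Y))
  let T' : X →L[𝕜] LinearMap.range (T : X →ₗ[𝕜] Y) :=
    T.codRestrict (LinearMap.range (T : X →ₗ[𝕜] Y)) (fun x => ⟨x, rfl⟩)
  let F : ∀ i, StrongDual 𝕜 X := fun i => (LinearMap.toContinuousLinearMap (b.coord i)).comp T'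
  have h1 : ∀ x, T x = ∑ i, F i x • (b i : Y) := by
    intro x
    have h2 := b.sum_repr (T' x)
    have h3 := congrArg (fun z : LinearMap.range (T : X →ₗ[𝕜] Y) => (z : Y)) h2
    simp only [Submodule.coe_sum, Submodule.coe_smul] at h3
    exact h3.symm
  have h := fac_sum (fun i => (F i).smulRight (b i : Y)) (fun i => ‖F i‖ * ‖(b i : Y)‖)
    (Summable.of_finite) (fun i => fac_rankOne _ _) T (by
      intro x
      rw [h1]
      exact hasSum_fintype _)
  exact ⟨_, h⟩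

/-- the norm -/
noncomputable def facNorm (T : X →L[𝕜] Y) : ℝ := sInf {c | Fac T c}

theorem bddBelow (T : X →L[𝕜] Y) : BddBelow {c | Fac T c} := ⟨0, fun _ h => h.nonneg⟩

theorem facNorm_le {T : X →L[𝕜] Y} {c : ℝ} (h : Fac T c) : facNorm T ≤ c := csInf_le (bddBelow T) h

theorem le_facNorm {T : X →L[𝕜] Y} (h : ∃ c, Fac T c) : ‖T‖ ≤ facNorm T :=
  le_csInf h fun _ hc => hc.norm_le

theorem fac_of_lt {T : X →L[𝕜] Y} (h : ∃ c, Fac T c) {d : ℝ} (hd : facNorm T < d) : Fac T d := by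
  obtain ⟨c, hc, hcd⟩ := exists_lt_of_csInf_lt h hd
  exact Fac.mono hc hcd.le

theorem facNorm_nonneg {T : X →L[𝕜] Y} (h : ∃ c, Fac T c) : 0 ≤ facNorm T :=
  (norm_nonneg _).trans (le_facNorm h)

theorem facNorm_le_of_forall {T : X →L[𝕜] Y} {c : ℝ} (h : ∀ ε : ℝ, 0 < ε → Fac T (c + ε)) :
    facNorm T ≤ c :=
  le_of_forall_pos_le_add fun ε hε => facNorm_le (h ε hε)

theorem facNorm_add [CompleteSpace Y] {T S : X →L[𝕜] Y} (hT : ∃ c, Fac T c) (hS : ∃ c, Fac S c) :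
    facNorm (T + S) ≤ facNorm T + facNorm S := by
  refine facNorm_le_of_forall fun ε hε => ?_
  have h1 := fac_of_lt hT (lt_add_of_pos_right (facNorm T) (half_pos hε))
  have h2 := fac_of_lt hS (lt_add_of_pos_right (facNorm S) (half_pos hε))
  have := h1.add h2
  convert this using 1
  ring

theorem facNorm_smul_le {T : X →L[𝕜] Y} (hT : ∃ c, Fac T c) (a : 𝕜) :
    facNorm (a • T) ≤ ‖a‖ * facNorm T := by
  refine le_of_forall_pos_le_add fun ε hε => ?_
  have h1 := (fac_of_lt hT (lt_add_of_pos_right (facNorm T)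
    (by positivity : 0 < ε / (‖a‖ + 1)))).smul a
  refine (facNorm_le h1).trans ?_
  rw [mul_add]
  gcongr
  rw [mul_div_assoc']
  rw [div_le_iff₀ (by positivity)]
  nlinarith [norm_nonneg a]

theorem facNorm_smul {T : X →L[𝕜] Y} (hT : ∃ c, Fac T c) (a : 𝕜) :
    facNorm (a • T) = ‖a‖ * facNorm T := by
  refine le_antisymm (facNorm_smul_le hT a) ?_
  by_cases ha : a = 0
  · rw [ha, norm_zero, zero_mul, zero_smul]
    exact facNorm_nonneg ⟨0, fac_zero⟩
  · obtain ⟨c, hc⟩ := hT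
    have h1 := facNorm_smul_le (T := a • T) ⟨_, hc.smul a⟩ a⁻¹
    rw [smul_smul, inv_mul_cancel₀ ha, one_smul, norm_inv] at h1
    have h2 : 0 < ‖a‖ := norm_pos_iff.2 ha
    calc ‖a‖ * facNorm T ≤ ‖a‖ * (‖a‖⁻¹ * facNorm (a • T)) := by gcongr
      _ = facNorm (a • T) := by field_simp

theorem facNorm_comp {T : X →L[𝕜] Y} (hT : ∃ c, Fac T c) (S : W →L[𝕜] X) (R : Y →L[𝕜] Z) :
    facNorm (R.comp (T.comp S)) ≤ ‖R‖ * facNorm T * ‖S‖ := by
  refine le_of_forall_pos_le_add fun ε hε => ?_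
  have h1 := (fac_of_lt hT (lt_add_of_pos_right (facNorm T)
    (by positivity : 0 < ε / (‖R‖ * ‖S‖ + 1)))).comp S R
  refine (facNorm_le h1).trans ?_
  have h2 : ‖R‖ * (ε / (‖R‖ * ‖S‖ + 1)) * ‖S‖ ≤ ε := by
    have : ‖R‖ * (ε / (‖R‖ * ‖S‖ + 1)) * ‖S‖ = ε * (‖R‖ * ‖S‖) / (‖R‖ * ‖S‖ + 1) := by ring
    rw [this, div_le_iff₀ (by positivity)]
    nlinarith [mul_nonneg (norm_nonneg R) (norm_nonneg S)]
  calc ‖R‖ * (facNorm T + ε / (‖R‖ * ‖S‖ + 1)) * ‖S‖
      = ‖R‖ * facNorm T * ‖S‖ + ‖R‖ * (ε / (‖R‖ * ‖S‖ + 1)) * ‖S‖ := by ring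
    _ ≤ _ := by gcongr

theorem facNorm_complete [CompleteSpace Y] (T : ℕ → X →L[𝕜] Y) (hT : ∀ n, ∃ c, Fac (T n) c)
    (hC : ∀ ε : ℝ, 0 < ε → ∃ N, ∀ m ≥ N, ∀ n ≥ N, facNorm (T m - T n) < ε) :
    ∃ S : X →L[𝕜] Y, (∃ c, Fac S c) ∧ Tendsto (fun n => facNorm (T n - S)) atTop (𝓝 0) := by
  have hsub : ∀ m n, ∃ c, Fac (T m - T n) c := by
    intro m n
    obtain ⟨c, hc⟩ := hT m
    obtain ⟨d, hd⟩ := hT n
    have := hc.add (hd.smul (-1))
    rw [neg_one_smul, ← sub_eq_add_neg] at this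
    exact ⟨_, this⟩
  have hcau : CauchySeq T := by
    rw [Metric.cauchySeq_iff]
    intro ε hε
    obtain ⟨N, hN⟩ := hC ε hε
    refine ⟨N, fun m hm n hn => ?_⟩
    rw [dist_eq_norm]
    exact (le_facNorm (hsub m n)).trans_lt (hN m hm n hn)
  obtain ⟨S, hS⟩ := cauchySeq_tendsto_of_complete hcau
  have hpow : ∀ k : ℕ, (0:ℝ) < (1 / 2) ^ k := fun k => by positivity
  choose N hN using fun k : ℕ => hC ((1 / 2) ^ k) (hpow k)
  -- a strictly increasing sequence of indices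
  let φ : ℕ → ℕ := fun k => ∑ j ∈ Finset.range (k + 1), (N j + 1)
  have hφN : ∀ k, N k ≤ φ k := by
    intro k
    have : N k + 1 ≤ φ k := Finset.single_le_sum (f := fun j => N j + 1) (fun j _ => Nat.zero_le _)
      (Finset.mem_range.2 (Nat.lt_succ_self k))
    omega
  have hφs : StrictMono φ := by
    refine strictMono_nat_of_lt_succ fun k => ?_
    show φ k < ∑ j ∈ Finset.range (k + 1 + 1), (N j + 1)
    rw [Finset.sum_range_succ]
    show φ k < φ k + (N (k + 1) + 1)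
    omega
  have hstep : ∀ k j, Fac (T (φ (k + j + 1)) - T (φ (k + j))) ((1 / 2) ^ (k + j)) := by
    intro k j
    refine fac_of_lt (hsub _ _) (hN (k + j) _ ?_ _ (hφN _))
    exact (hφN _).trans (hφs (Nat.lt_succ_self _)).le
  have hlim : ∀ k, Fac (S - T (φ k)) (2 * (1 / 2) ^ k) := by
    intro k
    have hg : HasSum (fun j : ℕ => (1 / 2 : ℝ) ^ (k + j)) (2 * (1 / 2) ^ k) := by
      have := (hasSum_geometric_of_lt_one (r := (1 / 2 : ℝ)) (by norm_num) (by norm_num)).mul_left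
        ((1 / 2 : ℝ) ^ k)
      have h2 : (1 - 1 / 2 : ℝ)⁻¹ = 2 := by norm_num
      rw [h2, mul_comm] at this
      simpa only [pow_add] using this
    have h := fac_sum (fun j => T (φ (k + j + 1)) - T (φ (k + j))) (fun j => (1 / 2) ^ (k + j))
      hg.summable (hstep k) (S - T (φ k)) (by
        intro x
        have h1 : Summable fun j => (T (φ (k + j + 1)) - T (φ (k + j))) x := by
          refine Summable.of_norm_bounded (g := fun j => (1 / 2 : ℝ) ^ (k + j) * ‖x‖)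
            (hg.summable.mul_right _) fun j => ?_
          exact ((T (φ (k + j + 1)) - T (φ (k + j))).le_opNorm x).trans
            (mul_le_mul_of_nonneg_right (hstep k j).norm_le (norm_nonneg _))
        rw [h1.hasSum_iff_tendsto_nat]
        have h2 : ∀ n, ∑ j ∈ Finset.range n, (T (φ (k + j + 1)) - T (φ (k + j))) x =
            T (φ (k + n)) x - T (φ k) x := by
          intro n
          exact Finset.sum_range_sub (fun j => T (φ (k + j)) x) n
        simp_rw [h2]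
        have h3 : Tendsto (fun n => T (φ (k + n)) x) atTop (𝓝 (S x)) := by
          have h4 : Tendsto (fun n => φ (k + n)) atTop atTop :=
            hφs.tendsto_atTop.comp (tendsto_add_atTop_nat k |>.congr fun n => by rw [add_comm])
          exact ((ContinuousLinearMap.apply 𝕜 Y x).continuous.tendsto S).comp (hS.comp h4)
        exact h3.sub_const _)
    rw [hg.tsum_eq] at h
    exact h
  have hSf : ∃ c, Fac S c := by
    obtain ⟨c, hc⟩ := hT (φ 0)
    have := (hlim 0).add hc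
    rw [sub_add_cancel] at this
    exact ⟨_, this⟩
  refine ⟨S, hSf, ?_⟩
  rw [Metric.tendsto_atTop]
  intro ε hε
  obtain ⟨k, hk⟩ : ∃ k : ℕ, 3 * (1 / 2 : ℝ) ^ k < ε := by
    have h1 : Tendsto (fun k : ℕ => 3 * (1 / 2 : ℝ) ^ k) atTop (𝓝 (3 * 0)) :=
      (tendsto_pow_atTop_nhds_zero_of_lt_one (by norm_num) (by norm_num)).const_mul 3
    rw [mul_zero] at h1
    exact (h1.eventually (gt_mem_nhds hε)).exists
  refine ⟨N k, fun n hn => ?_⟩
  have h1 : T n - S = (T n - T (φ k)) + (-1 : 𝕜) • (S - T (φ k)) := by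
    rw [neg_one_smul]
    abel
  have hmem : ∃ c, Fac (T n - S) c := by
    obtain ⟨c, hc⟩ := hsub n (φ k)
    rw [h1]
    exact ⟨_, hc.add ((hlim k).smul (-1))⟩
  have h2 : facNorm (T n - S) ≤ (1 / 2) ^ k + 2 * (1 / 2) ^ k := by
    rw [h1]
    refine facNorm_le ?_
    have h3 := fac_of_lt (hsub _ _) (hN k n hn (φ k) (hφN k))
    have h4 := (hlim k).smul (-1 : 𝕜)
    rw [norm_neg, norm_one, one_mul] at h4
    exact h3.add h4
  rw [Real.dist_eq, sub_zero, abs_of_nonneg (facNorm_nonneg hmem)]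
  linarith

end

/-- The class of the operators that factor through some `ℓ_∞(Γ)`. -/
noncomputable def facIdeal (𝕜 : Type) [RCLike 𝕜] : OpClass 𝕜 where
  Mem T := ∃ c, Fac T.map c
  nrm T := facNorm T.map

theorem facIdeal_ideal (𝕜 : Type) [RCLike 𝕜] : IsBanachOperatorIdeal (facIdeal 𝕜) where
  isLinear :=
    { finiteRank_mem := fun T hT => fac_of_finiteRank T.map hT
      add_mem := fun T S hT hS => by
        obtain ⟨c, hc⟩ := hT
        obtain ⟨d, hd⟩ := hS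
        exact ⟨_, hc.add hd⟩
      smul_mem := fun a T hT => by
        obtain ⟨c, hc⟩ := hT
        exact ⟨_, hc.smul a⟩ }
  isNorm :=
    { nonneg := fun T hT => facNorm_nonneg hT
      definite := fun T hT h => by
        have := le_facNorm hT
        have h' : facNorm T.map = 0 := h
        rw [h'] at this
        exact le_antisymm this (norm_nonneg _)
      add_le := fun T S hT hS => facNorm_add hT hS
      smul := fun a T hT => facNorm_smul hT a }
  isComplete := fun X Y T hT hC => facNorm_complete T hT hC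
  isIdeal :=
    { comp_mem := fun S T R hT => by
        obtain ⟨c, hc⟩ := hT
        exact ⟨_, hc.comp S.map R.map⟩
      comp_le := fun S T R hT => facNorm_comp hT S.map R.map
      rankOne := fun {X Y} f y => by
        refine le_antisymm (facNorm_le (fac_rankOne f y)) ?_
        have := le_facNorm ⟨_, fac_rankOne f y⟩
        rwa [ContinuousLinearMap.norm_smulRight_apply] at this }

end Pool.Agent.TH315.OpId
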